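import Mathlib
import Pool.Agent.Helper27.OWN.Lac

set_option autoImplicit false

namespace Pool.Agent.Results.MP_f93147_an.LacunaryAtom

open MeasureTheory

/-- There is a probability measure `μ` on `[0,2]` whose Fourier transform is at most
`7|ξ|^(-1/10)` in absolute value for all `ξ ≠ 0`, such that the maximal function
`M f(x) = sup_k |∫ f(x - 2^k y) dμ(y)|` of the function `f` which is `1` on `(0,1]`, `-1` on
`(1,2]` and `0` elsewhere is not in weak `L^1`; the function `f` lies in the Hardy space. -/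
theorem result :
    ∃ μ : Measure ℝ, IsProbabilityMeasure μ ∧ μ (Set.Icc 0 2)ᶜ = 0 ∧
      (∀ ξ : ℝ, ξ ≠ 0 →
        ‖∫ y, Complex.exp (((-2 * Real.pi * (y * ξ) : ℝ) : ℂ) * Complex.I) ∂μ‖
          ≤ 7 * |ξ| ^ (-(1 / 10) : ℝ)) ∧
      ∃ f : ℝ → ℝ,
        (∀ x, f x = if 0 < x ∧ x ≤ 1 then 1 else if 1 < x ∧ x ≤ 2 then -1 else 0) ∧
        (∫ x, f x) = 0 ∧
        (∫⁻ x : ℝ, ⨆ (t : ℝ) (_ : 0 < t),
          ‖∫ y, f (x - t * y) * Real.exp (-Real.pi * y ^ 2)‖ₑ) ≤ ENNReal.ofReal (34 * Real.pi) ∧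
        ∀ j : ℕ, ENNReal.ofReal (5 ^ j / 128) ≤
          ENNReal.ofReal (1 / 2 ^ (6 * 10 ^ (j + 1) + j + 5)) *
            volume {x : ℝ | ENNReal.ofReal (1 / 2 ^ (6 * 10 ^ (j + 1) + j + 5)) <
              ⨆ k : ℤ, ‖∫ y, f (x - (2:ℝ) ^ k * y) ∂μ‖ₑ} :=
  Pool.Agent.Helper27.OwnLac.main

end Pool.Agent.Results.MP_f93147_an.LacunaryAtom
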